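import Pool.Agent.H8.RA.Cube

/-!
# Maps which nearly preserve the right angles of isosceles right triangles with legs of length one, continued

The lemma on the unit spheres.
-/

set_option autoImplicit false

open Set Filter Topology Metric

noncomputable section

namespace Pool.Agent.H8.RA

variable {V : Type*} [NormedAddCommGroup V] [InnerProductSpace ℝ V] {n : ℕ}

/-- the right angles at `v` with legs of length one -/
def Good (F : EuclideanSpace ℝ (Fin n) → V) (δ : ℝ) (v : EuclideanSpace ℝ (Fin n)) : Prop :=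
  ∀ a b : EuclideanSpace ℝ (Fin n), ‖a‖ = 1 → ‖b‖ = 1 → inner ℝ a b = 0 →
    |inner ℝ (F (v + a) - F v) (F (v + b) - F v)| ≤ δ * (‖F (v + a) - F v‖ * ‖F (v + b) - F v‖)

/-- a square -/
theorem square {F : EuclideanSpace ℝ (Fin n) → V} {ε m : ℝ} (hε : 0 ≤ ε) (hε3 : ε ≤ 1 / 3)
    {y a b : EuclideanSpace ℝ (Fin n)} (ha : ‖a‖ = 1) (hb : ‖b‖ = 1) (hab : inner ℝ a b = 0)
    (g1 : Good F (ε ^ 2) y) (g2 : Good F (ε ^ 2) (y + a)) (g3 : Good F (ε ^ 2) (y + b))
    (g4 : Good F (ε ^ 2) (y + a + b)) (hA : ‖F (y + a) - F y‖ ≤ m) (hB : ‖F (y + b) - F y‖ ≤ m) :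
    ‖F (y + a + b) - F (y + a) - (F (y + b) - F y)‖ ≤ 3 * ε * m := by
  have na : ‖-a‖ = 1 := by rw [norm_neg, ha]
  have nb : ‖-b‖ = 1 := by rw [norm_neg, hb]
  have e1 : y + a + -a = y := by abel
  have e2 : y + b + -b = y := by abel
  have e3 : y + a + b + -a = y + b := by abel
  have e4 : y + a + b + -b = y + a := by abel
  have e5 : y + b + a = y + a + b := by abel
  have h1 := g1 a b ha hb hab
  have h2 := g2 (-a) b na hb (by rw [inner_neg_left, hab, neg_zero])
  have h3 := g3 a (-b) ha nb (by rw [inner_neg_right, hab, neg_zero])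
  have h4 := g4 (-a) (-b) na nb (by rw [inner_neg_left, inner_neg_right, hab, neg_zero, neg_zero])
  rw [e1] at h2
  rw [e2, e5] at h3
  rw [e3, e4] at h4
  obtain ⟨A, hA'⟩ : ∃ A, A = F (y + a) - F y := ⟨_, rfl⟩
  obtain ⟨B, hB'⟩ : ∃ B, B = F (y + b) - F y := ⟨_, rfl⟩
  obtain ⟨D, hD'⟩ : ∃ D, D = F (y + a + b) - F (y + a) - (F (y + b) - F y) := ⟨_, rfl⟩
  have k1 : F y - F (y + a) = -A := by rw [hA']; abel
  have k2 : F (y + a + b) - F (y + a) = B + D := by rw [hB', hD']; abel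
  have k3 : F y - F (y + b) = -B := by rw [hB']; abel
  have k4 : F (y + a + b) - F (y + b) = A + D := by rw [hA', hD']; abel
  have k5 : F (y + b) - F (y + a + b) = -(A + D) := by rw [← k4]; abel
  have k6 : F (y + a) - F (y + a + b) = -(B + D) := by rw [← k2]; abel
  rw [← hA', ← hB'] at h1
  rw [k1, k2, inner_neg_left, abs_neg, norm_neg] at h2
  rw [k4, k3, inner_neg_right, abs_neg, norm_neg] at h3
  rw [k5, k6, inner_neg_left, inner_neg_right, abs_neg, abs_neg, norm_neg, norm_neg] at h4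
  rw [← hD']
  exact vec_square hε hε3 (by rw [hA']; exact hA) (by rw [hB']; exact hB) h1 h2 h3 h4

/-- a vector orthogonal to three given ones -/
theorem exists_perp (hn : 4 ≤ n) (v1 v2 v3 : EuclideanSpace ℝ (Fin n)) :
    ∃ r : EuclideanSpace ℝ (Fin n), ‖r‖ = 1 ∧ inner ℝ v1 r = 0 ∧ inner ℝ v2 r = 0 ∧ inner ℝ v3 r = 0 := by
  classical
  obtain ⟨K, hK⟩ : ∃ K : Submodule ℝ (EuclideanSpace ℝ (Fin n)),
      K = Submodule.span ℝ (({v1, v2, v3} : Finset (EuclideanSpace ℝ (Fin n))) : Set _) := ⟨_, rfl⟩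
  have hfin : Module.finrank ℝ K ≤ 3 := by
    rw [hK]
    exact (finrank_span_finset_le_card _).trans Finset.card_le_three
  have hbot : Kᗮ ≠ ⊥ := by
    intro h
    rw [Submodule.orthogonal_eq_bot_iff] at h
    rw [h, finrank_top, finrank_euclideanSpace, Fintype.card_fin] at hfin
    omega
  obtain ⟨z, hz, hz0⟩ := Submodule.exists_mem_ne_zero_of_ne_bot hbot
  rw [Submodule.mem_orthogonal] at hz
  have hmem : ∀ v ∈ ({v1, v2, v3} : Finset (EuclideanSpace ℝ (Fin n))), v ∈ K := by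
    intro v hv
    rw [hK]
    exact Submodule.subset_span (by exact_mod_cast hv)
  have hz1 : ‖z‖ ≠ 0 := norm_ne_zero_iff.2 hz0
  refine ⟨(‖z‖)⁻¹ • z, ?_, ?_, ?_, ?_⟩
  · rw [norm_smul, norm_inv, norm_norm, inv_mul_cancel₀ hz1]
  · rw [real_inner_smul_right, hz v1 (hmem _ (by simp)), mul_zero]
  · rw [real_inner_smul_right, hz v2 (hmem _ (by simp)), mul_zero]
  · rw [real_inner_smul_right, hz v3 (hmem _ (by simp)), mul_zero]

/-- the cube with the edges `a`, `b`, `c`, `d` -/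
theorem cube {F : EuclideanSpace ℝ (Fin n) → V} {ε : ℝ} (hε : 0 ≤ ε) (hε3 : ε ≤ 1 / 50)
    {y a b c d : EuclideanSpace ℝ (Fin n)} (ha : ‖a‖ = 1) (hb : ‖b‖ = 1) (hc : ‖c‖ = 1) (hd : ‖d‖ = 1)
    (hab : inner ℝ a b = 0) (hac : inner ℝ a c = 0) (had : inner ℝ a d = 0) (hbc : inner ℝ b c = 0)
    (hbd : inner ℝ b d = 0) (hcd : inner ℝ c d = 0)
    (hG : ∀ v, ‖v - y‖ ≤ 4 → Good F (ε ^ 2) v) :
    ∃ M : ℝ, 0 ≤ M ∧ M ^ 2 ≤ 2 * (‖F (y + a + b) - F y‖ ^ 2 + ‖F (y + c + d) - F y‖ ^ 2) ∧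
      |inner ℝ (F (y + a + b) - F y) (F (y + c + d) - F y)| ≤ 13 * ε * M ^ 2 ∧
      ‖F (y + a + b + c + d) - F (y + a + b) - (F (y + c + d) - F y)‖ ≤ 14 * ε * M := by
  obtain ⟨M, hM⟩ : ∃ M : ℝ, M = max (max ‖F (y + a) - F y‖ ‖F (y + b) - F y‖)
    (max ‖F (y + c) - F y‖ ‖F (y + d) - F y‖) := ⟨_, rfl⟩
  have mA : ‖F (y + a) - F y‖ ≤ M := by rw [hM]; exact (le_max_left _ _).trans (le_max_left _ _)
  have mB : ‖F (y + b) - F y‖ ≤ M := by rw [hM]; exact (le_max_right _ _).trans (le_max_left _ _)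
  have mC : ‖F (y + c) - F y‖ ≤ M := by rw [hM]; exact (le_max_left _ _).trans (le_max_right _ _)
  have mD : ‖F (y + d) - F y‖ ≤ M := by rw [hM]; exact (le_max_right _ _).trans (le_max_right _ _)
  have hM0 : 0 ≤ M := (norm_nonneg _).trans mA
  have hMs : M ^ 2 ≤ ‖F (y + a) - F y‖ ^ 2 + ‖F (y + b) - F y‖ ^ 2 + ‖F (y + c) - F y‖ ^ 2 +
      ‖F (y + d) - F y‖ ^ 2 := by
    have e1 := sq_nonneg ‖F (y + a) - F y‖
    have e2 := sq_nonneg ‖F (y + b) - F y‖
    have e3 := sq_nonneg ‖F (y + c) - F y‖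
    have e4 := sq_nonneg ‖F (y + d) - F y‖
    rw [hM]
    rcases max_choice (max ‖F (y + a) - F y‖ ‖F (y + b) - F y‖) (max ‖F (y + c) - F y‖ ‖F (y + d) - F y‖) with h | h
    · rw [h]
      rcases max_choice ‖F (y + a) - F y‖ ‖F (y + b) - F y‖ with h' | h' <;> rw [h'] <;> linarith
    · rw [h]
      rcases max_choice ‖F (y + c) - F y‖ ‖F (y + d) - F y‖ with h' | h' <;> rw [h'] <;> linarith
  have hε' : ε ≤ 1 / 3 := by linarith
  have G0 : Good F (ε ^ 2) y := hG y (by simp)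
  have G1 : ∀ {p : EuclideanSpace ℝ (Fin n)}, ‖p‖ = 1 → Good F (ε ^ 2) (y + p) := by
    intro p hp
    refine hG _ ?_
    rw [add_sub_cancel_left, hp]; norm_num
  have G2 : ∀ {p q : EuclideanSpace ℝ (Fin n)}, ‖p‖ = 1 → ‖q‖ = 1 → Good F (ε ^ 2) (y + p + q) := by
    intro p q hp hq
    refine hG _ ?_
    have e1 : y + p + q - y = p + q := by abel
    have e2 := norm_add_le p q
    rw [e1]; linarith
  have G3 : ∀ {p q r : EuclideanSpace ℝ (Fin n)}, ‖p‖ = 1 → ‖q‖ = 1 → ‖r‖ = 1 →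
      Good F (ε ^ 2) (y + p + q + r) := by
    intro p q r hp hq hr
    refine hG _ ?_
    have e1 : y + p + q + r - y = p + q + r := by abel
    have e2 := norm_add_le p q
    have e3 := norm_add_le (p + q) r
    rw [e1]; linarith
  have G4 : ∀ {p q r s : EuclideanSpace ℝ (Fin n)}, ‖p‖ = 1 → ‖q‖ = 1 → ‖r‖ = 1 → ‖s‖ = 1 →
      Good F (ε ^ 2) (y + p + q + r + s) := by
    intro p q r s hp hq hr hs
    refine hG _ ?_
    have e1 : y + p + q + r + s - y = p + q + r + s := by abel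
    have e2 := norm_add_le p q
    have e3 := norm_add_le (p + q) r
    have e4 := norm_add_le (p + q + r) s
    rw [e1]; linarith
  -- the squares at `y`
  have s1 := square hε hε' ha hb hab G0 (G1 ha) (G1 hb) (G2 ha hb) mA mB
  have s2 := square hε hε' hc hd hcd G0 (G1 hc) (G1 hd) (G2 hc hd) mC mD
  have s3 := square hε hε' ha hc hac G0 (G1 ha) (G1 hc) (G2 ha hc) mA mC
  have s4 := square hε hε' ha hd had G0 (G1 ha) (G1 hd) (G2 ha hd) mA mD
  have hεM : 0 ≤ ε * M := mul_nonneg hε hM0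
  -- the steps at `y + c`
  have t1 : ‖F (y + c + a) - F (y + c)‖ ≤ 53 / 50 * M := by
    have e1 : F (y + c + a) - F (y + c) = (F (y + a) - F y) + (F (y + a + c) - F (y + a) - (F (y + c) - F y)) := by
      rw [show y + c + a = y + a + c by abel]; abel
    rw [e1]
    refine (norm_add_le _ _).trans ?_
    nlinarith
  have t2 : ‖F (y + c + d) - F (y + c)‖ ≤ 53 / 50 * M := by
    have e1 : F (y + c + d) - F (y + c) = (F (y + d) - F y) + (F (y + c + d) - F (y + c) - (F (y + d) - F y)) := by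
      abel
    rw [e1]
    refine (norm_add_le _ _).trans ?_
    nlinarith
  have s5 := square hε hε' ha hd had (G1 hc) (G2 hc ha) (G2 hc hd) (G3 hc ha hd) t1 t2
  -- the steps at `y + a`
  have t3 : ‖F (y + a + b) - F (y + a)‖ ≤ 53 / 50 * M := by
    have e1 : F (y + a + b) - F (y + a) = (F (y + b) - F y) + (F (y + a + b) - F (y + a) - (F (y + b) - F y)) := by
      abel
    rw [e1]
    refine (norm_add_le _ _).trans ?_
    nlinarith
  have t4 : ‖F (y + a + c) - F (y + a)‖ ≤ 53 / 50 * M := by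
    have e1 : F (y + a + c) - F (y + a) = (F (y + c) - F y) + (F (y + a + c) - F (y + a) - (F (y + c) - F y)) := by
      abel
    rw [e1]
    refine (norm_add_le _ _).trans ?_
    nlinarith
  have s6 := square hε hε' hb hc hbc (G1 ha) (G2 ha hb) (G2 ha hc) (G3 ha hb hc) t3 t4
  have t5 : ‖F (y + a + d) - F (y + a)‖ ≤ 53 / 50 * M := by
    have e1 : F (y + a + d) - F (y + a) = (F (y + d) - F y) + (F (y + a + d) - F (y + a) - (F (y + d) - F y)) := by
      abel
    rw [e1]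
    refine (norm_add_le _ _).trans ?_
    nlinarith
  have s7 := square hε hε' hc hd hcd (G1 ha) (G2 ha hc) (G2 ha hd) (G3 ha hc hd) t4 t5
  -- the steps at `y + a + c`
  have t6 : ‖F (y + a + c + b) - F (y + a + c)‖ ≤ 57 / 50 * M := by
    have e1 : F (y + a + c + b) - F (y + a + c) = (F (y + a + b) - F (y + a)) +
        (F (y + a + b + c) - F (y + a + b) - (F (y + a + c) - F (y + a))) := by
      rw [show y + a + c + b = y + a + b + c by abel]; abel
    rw [e1]
    refine (norm_add_le _ _).trans ?_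
    nlinarith
  have t7 : ‖F (y + a + c + d) - F (y + a + c)‖ ≤ 57 / 50 * M := by
    have e1 : F (y + a + c + d) - F (y + a + c) = (F (y + a + d) - F (y + a)) +
        (F (y + a + c + d) - F (y + a + c) - (F (y + a + d) - F (y + a))) := by
      abel
    rw [e1]
    refine (norm_add_le _ _).trans ?_
    nlinarith
  have s8 := square hε hε' hb hd hbd (G2 ha hc) (G3 ha hc hb) (G3 ha hc hd) (G4 ha hc hb hd) t6 t7
  have hP : ‖F (y + a + b) - F y - ((F (y + a) - F y) + (F (y + b) - F y))‖ ≤ 3 * ε * M := by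
    have e1 : F (y + a + b) - F y - ((F (y + a) - F y) + (F (y + b) - F y)) =
        F (y + a + b) - F (y + a) - (F (y + b) - F y) := by abel
    rw [e1]; exact s1
  have hR : ‖F (y + c + d) - F y - ((F (y + c) - F y) + (F (y + d) - F y))‖ ≤ 3 * ε * M := by
    have e1 : F (y + c + d) - F y - ((F (y + c) - F y) + (F (y + d) - F y)) =
        F (y + c + d) - F (y + c) - (F (y + d) - F y) := by abel
    rw [e1]; exact s2
  obtain ⟨f1, f2⟩ := vec_frame hε hε3 mA mB mC mD hMs (G0 a b ha hb hab) (G0 c d hc hd hcd) (G0 a c ha hc hac)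
    (G0 a d ha hd had) (G0 b c hb hc hbc) (G0 b d hb hd hbd) hP hR
  refine ⟨M, hM0, f2, f1, ?_⟩
  have e1 : F (y + a + b + c + d) - F (y + a + b) - (F (y + c + d) - F y) =
      (F (y + a + c) - F (y + a) - (F (y + c) - F y)) +
      (F (y + c + a + d) - F (y + c + a) - (F (y + c + d) - F (y + c))) +
      (F (y + a + b + c) - F (y + a + b) - (F (y + a + c) - F (y + a))) +
      (F (y + a + c + b + d) - F (y + a + c + b) - (F (y + a + c + d) - F (y + a + c))) := by
    rw [show y + c + a + d = y + a + c + d by abel, show y + c + a = y + a + c by abel,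
      show y + a + c + b + d = y + a + b + c + d by abel, show y + a + c + b = y + a + b + c by abel]
    abel
  rw [e1]
  have n1 := norm_add_le ((F (y + a + c) - F (y + a) - (F (y + c) - F y)) +
      (F (y + c + a + d) - F (y + c + a) - (F (y + c + d) - F (y + c))) +
      (F (y + a + b + c) - F (y + a + b) - (F (y + a + c) - F (y + a))))
      (F (y + a + c + b + d) - F (y + a + c + b) - (F (y + a + c + d) - F (y + a + c)))
  have n2 := norm_add_le ((F (y + a + c) - F (y + a) - (F (y + c) - F y)) +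
      (F (y + c + a + d) - F (y + c + a) - (F (y + c + d) - F (y + c))))
      (F (y + a + b + c) - F (y + a + b) - (F (y + a + c) - F (y + a)))
  have n3 := norm_add_le (F (y + a + c) - F (y + a) - (F (y + c) - F y))
      (F (y + c + a + d) - F (y + c + a) - (F (y + c + d) - F (y + c)))
  linarith

/-- the differences with steps `± e`, `± e'` at `u` -/
theorem steps (hn : 4 ≤ n) {F : EuclideanSpace ℝ (Fin n) → V} {ε : ℝ} (hε : 0 ≤ ε) (hε3 : ε ≤ 1 / 300)
    {u e e' : EuclideanSpace ℝ (Fin n)} (he : ‖e‖ = 1) (he' : ‖e'‖ = 1) (hee : inner ℝ e e' = 0)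
    (hG : ∀ v, ‖v - u‖ ≤ 5 → Good F (ε ^ 4) v) :
    ‖F (u + e) - F u‖ ^ 2 ≤ 6 / 5 * ‖F (u + e') - F u‖ ^ 2 ∧
      ‖F (u + e) + F (u - e) - (2 : ℝ) • F u‖ ≤ 13 * ε * ‖F (u + e) - F u‖ := by
  obtain ⟨r, hr, hre, hre', -⟩ := exists_perp hn e e' e
  obtain ⟨t, ht, hte, hte', htr⟩ := exists_perp hn e e' r
  obtain ⟨σ, hσ⟩ : ∃ σ : ℝ, σ ^ 2 = 1 / 2 := ⟨√(1 / 2), Real.sq_sqrt (by norm_num)⟩
  obtain ⟨a, ha⟩ : ∃ a, a = (1 / 2 : ℝ) • (e' - e) + σ • r := ⟨_, rfl⟩
  obtain ⟨b, hb⟩ : ∃ b, b = (1 / 2 : ℝ) • (e' - e) - σ • r := ⟨_, rfl⟩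
  obtain ⟨c, hc⟩ : ∃ c, c = -((1 / 2 : ℝ) • (e' + e)) + σ • t := ⟨_, rfl⟩
  obtain ⟨d, hd⟩ : ∃ d, d = -((1 / 2 : ℝ) • (e' + e)) - σ • t := ⟨_, rfl⟩
  have iee : inner ℝ e e = (1 : ℝ) := by rw [real_inner_self_eq_norm_sq, he]; norm_num
  have iee2 : inner ℝ e' e' = (1 : ℝ) := by rw [real_inner_self_eq_norm_sq, he']; norm_num
  have irr : inner ℝ r r = (1 : ℝ) := by rw [real_inner_self_eq_norm_sq, hr]; norm_num
  have itt : inner ℝ t t = (1 : ℝ) := by rw [real_inner_self_eq_norm_sq, ht]; norm_num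
  have hee2 : inner ℝ e' e = (0 : ℝ) := by rw [real_inner_comm]; exact hee
  have hre2 : inner ℝ r e = (0 : ℝ) := by rw [real_inner_comm]; exact hre
  have hre3 : inner ℝ r e' = (0 : ℝ) := by rw [real_inner_comm]; exact hre'
  have hte2 : inner ℝ t e = (0 : ℝ) := by rw [real_inner_comm]; exact hte
  have hte3 : inner ℝ t e' = (0 : ℝ) := by rw [real_inner_comm]; exact hte'
  have htr2 : inner ℝ t r = (0 : ℝ) := by rw [real_inner_comm]; exact htr
  have nrm : ∀ v : EuclideanSpace ℝ (Fin n), inner ℝ v v = (1 : ℝ) → ‖v‖ = 1 := by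
    intro v hv
    rw [real_inner_self_eq_norm_sq] at hv
    exact (pow_eq_one_iff_of_nonneg (norm_nonneg v) two_ne_zero).1 hv
  have ca : ‖a‖ = 1 := by
    apply nrm
    rw [ha]
    simp only [inner_add_left, inner_add_right, inner_sub_left, inner_sub_right, real_inner_smul_left,
      real_inner_smul_right, iee, iee2, irr, hee, hee2, hre, hre', hre2, hre3]
    linear_combination hσ
  have cb : ‖b‖ = 1 := by
    apply nrm
    rw [hb]
    simp only [inner_sub_left, inner_sub_right, real_inner_smul_left,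
      real_inner_smul_right, iee, iee2, irr, hee, hee2, hre, hre', hre2, hre3]
    linear_combination hσ
  have cc : ‖c‖ = 1 := by
    apply nrm
    rw [hc]
    simp only [inner_add_left, inner_add_right, inner_neg_left, inner_neg_right, real_inner_smul_left,
      real_inner_smul_right, iee, iee2, itt, hee, hee2, hte, hte', hte2, hte3]
    linear_combination hσ
  have cd : ‖d‖ = 1 := by
    apply nrm
    rw [hd]
    simp only [inner_add_left, inner_add_right, inner_sub_left, inner_sub_right, inner_neg_left, inner_neg_right,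
      real_inner_smul_left, real_inner_smul_right, iee, iee2, itt, hee, hee2, hte, hte', hte2, hte3]
    linear_combination hσ
  have iab : inner ℝ a b = 0 := by
    rw [ha, hb]
    simp only [inner_add_left, inner_sub_left, inner_sub_right, real_inner_smul_left,
      real_inner_smul_right, iee, iee2, irr, hee, hee2, hre, hre', hre2, hre3]
    linear_combination -hσ
  have icd : inner ℝ c d = 0 := by
    rw [hc, hd]
    simp only [inner_add_left, inner_add_right, inner_sub_right, inner_neg_left, inner_neg_right,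
      real_inner_smul_left, real_inner_smul_right, iee, iee2, itt, hee, hee2, hte, hte', hte2, hte3]
    linear_combination -hσ
  have iac : inner ℝ a c = 0 := by
    rw [ha, hc]
    simp only [inner_add_left, inner_add_right, inner_sub_left, inner_neg_right,
      real_inner_smul_left, real_inner_smul_right, iee, iee2, hee, hee2, hte, hte', hre2, hre3, htr]
    ring
  have iad : inner ℝ a d = 0 := by
    rw [ha, hd]
    simp only [inner_add_left, inner_add_right, inner_sub_left, inner_sub_right, inner_neg_right,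
      real_inner_smul_left, real_inner_smul_right, iee, iee2, hee, hee2, hte, hte', hre2, hre3, htr]
    ring
  have ibc : inner ℝ b c = 0 := by
    rw [hb, hc]
    simp only [inner_add_right, inner_sub_left, inner_neg_right,
      real_inner_smul_left, real_inner_smul_right, iee, iee2, hee, hee2, hte, hte', hre2, hre3, htr]
    ring
  have ibd : inner ℝ b d = 0 := by
    rw [hb, hd]
    simp only [inner_add_right, inner_sub_left, inner_sub_right, inner_neg_right,
      real_inner_smul_left, real_inner_smul_right, iee, iee2, hee, hee2, hte, hte', hre2, hre3, htr]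
    ring
  have h4 : (ε ^ 2) ^ 2 = ε ^ 4 := by ring
  have hε2 : ε ^ 2 ≤ 1 / 50 := by nlinarith
  obtain ⟨M, hM0, hM1, hM2, hM3⟩ := cube (F := F) (ε := ε ^ 2) (by positivity) hε2 (y := u + e) ca cb cc cd iab iac iad
    ibc ibd icd (by
      intro v hv
      rw [h4]
      refine hG v ?_
      have e1 : v - u = (v - (u + e)) + e := by abel
      rw [e1]
      refine (norm_add_le _ _).trans ?_
      rw [he]; linarith)
  have p1 : u + e + a + b = u + e' := by rw [ha, hb]; module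
  have p2 : u + e + c + d = u - e' := by rw [hc, hd]; module
  have p3 : u + e + a + b + c + d = u - e := by
    rw [p1, hc, hd]; module
  rw [p1, p2] at hM1 hM2
  rw [p3, p1, p2] at hM3
  obtain ⟨N, hN⟩ : ∃ N : ℝ, N = max (max ‖F (u + e) - F u‖ ‖F (u - e) - F u‖)
    (max ‖F (u + e') - F u‖ ‖F (u - e') - F u‖) := ⟨_, rfl⟩
  have mx : ‖F (u + e) - F u‖ ≤ N := by rw [hN]; exact (le_max_left _ _).trans (le_max_left _ _)
  have mx' : ‖F (u - e) - F u‖ ≤ N := by rw [hN]; exact (le_max_right _ _).trans (le_max_left _ _)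
  have mz : ‖F (u + e') - F u‖ ≤ N := by rw [hN]; exact (le_max_left _ _).trans (le_max_right _ _)
  have mz' : ‖F (u - e') - F u‖ ≤ N := by rw [hN]; exact (le_max_right _ _).trans (le_max_right _ _)
  have hN0 : 0 ≤ N := (norm_nonneg _).trans mx
  have hNs : N ^ 2 ≤ ‖F (u + e) - F u‖ ^ 2 ∨ N ^ 2 ≤ ‖F (u - e) - F u‖ ^ 2 ∨ N ^ 2 ≤ ‖F (u + e') - F u‖ ^ 2 ∨
      N ^ 2 ≤ ‖F (u - e') - F u‖ ^ 2 := by
    rw [hN]
    rcases max_choice (max ‖F (u + e) - F u‖ ‖F (u - e) - F u‖) (max ‖F (u + e') - F u‖ ‖F (u - e') - F u‖)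
      with h | h
    · rw [h]
      rcases max_choice ‖F (u + e) - F u‖ ‖F (u - e) - F u‖ with h' | h' <;> rw [h']
      · exact Or.inl le_rfl
      · exact Or.inr (Or.inl le_rfl)
    · rw [h]
      rcases max_choice ‖F (u + e') - F u‖ ‖F (u - e') - F u‖ with h' | h' <;> rw [h']
      · exact Or.inr (Or.inr (Or.inl le_rfl))
      · exact Or.inr (Or.inr (Or.inr le_rfl))
  have q1 : F (u + e') - F (u + e) = (F (u + e') - F u) - (F (u + e) - F u) := by abel
  have q2 : F (u - e') - F (u + e) = (F (u - e') - F u) - (F (u + e) - F u) := by abel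
  have q3 : F (u - e) - F (u + e') - (F (u - e') - F (u + e)) =
      ((F (u + e) - F u) + (F (u - e) - F u)) - ((F (u + e') - F u) + (F (u - e') - F u)) := by abel
  rw [q1, q2] at hM1 hM2
  rw [q3] at hM3
  have q4 : F (u + e) + F (u - e) - (2 : ℝ) • F u = (F (u + e) - F u) + (F (u - e) - F u) := by
    rw [two_smul]; abel
  rw [q4]
  have ne : ‖-e‖ = 1 := by rw [norm_neg, he]
  have ne' : ‖-e'‖ = 1 := by rw [norm_neg, he']
  have Gu : Good F (ε ^ 4) u := hG u (by simp)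
  have w1 := Gu e e' he he' hee
  have w2 := Gu e (-e') he ne' (by rw [inner_neg_right, hee, neg_zero])
  have w3 := Gu (-e) e' ne he' (by rw [inner_neg_left, hee, neg_zero])
  have w4 := Gu (-e) (-e') ne ne' (by rw [inner_neg_left, inner_neg_right, hee, neg_zero, neg_zero])
  rw [← sub_eq_add_neg] at w2 w3
  rw [← sub_eq_add_neg, ← sub_eq_add_neg] at w4
  have prod : ∀ {p q : ℝ}, 0 ≤ p → 0 ≤ q → p ≤ N → q ≤ N → ε ^ 4 * (p * q) ≤ ε ^ 4 * N ^ 2 := by
    intro p q hp hq hp' hq'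
    have : p * q ≤ N * N := mul_le_mul hp' hq' hq hN0
    rw [sq]
    exact mul_le_mul_of_nonneg_left this (by positivity)
  have hMN : M ≤ 4 * N := by
    refine le_of_sq_le_sq ?_ (by positivity)
    have e1 : ‖F (u + e') - F u - (F (u + e) - F u)‖ ≤ 2 * N := (norm_sub_le _ _).trans (by linarith)
    have e2 : ‖F (u - e') - F u - (F (u + e) - F u)‖ ≤ 2 * N := (norm_sub_le _ _).trans (by linarith)
    have e3 := pow_le_pow_left₀ (norm_nonneg _) e1 2
    have e4 := pow_le_pow_left₀ (norm_nonneg _) e2 2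
    calc M ^ 2 ≤ 2 * (‖F (u + e') - F u - (F (u + e) - F u)‖ ^ 2 + ‖F (u - e') - F u - (F (u + e) - F u)‖ ^ 2) := hM1
      _ ≤ 2 * ((2 * N) ^ 2 + (2 * N) ^ 2) := by gcongr
      _ = (4 * N) ^ 2 := by ring
  have hMN2 : M ^ 2 ≤ 16 * N ^ 2 := by
    have := pow_le_pow_left₀ hM0 hMN 2
    calc M ^ 2 ≤ (4 * N) ^ 2 := this
      _ = 16 * N ^ 2 := by ring
  refine vec_cross hε hε3 mx mx' mz mz' hNs (w1.trans (prod (norm_nonneg _) (norm_nonneg _) mx mz))
    (w2.trans (prod (norm_nonneg _) (norm_nonneg _) mx mz')) (w3.trans (prod (norm_nonneg _) (norm_nonneg _) mx' mz))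
    (w4.trans (prod (norm_nonneg _) (norm_nonneg _) mx' mz')) (hM3.trans ?_) (hM2.trans ?_)
  · calc 14 * ε ^ 2 * M ≤ 14 * ε ^ 2 * (4 * N) := mul_le_mul_of_nonneg_left hMN (by positivity)
      _ = 56 * ε ^ 2 * N := by ring
  · calc 13 * ε ^ 2 * M ^ 2 ≤ 13 * ε ^ 2 * (16 * N ^ 2) := mul_le_mul_of_nonneg_left hMN2 (by positivity)
      _ = 208 * ε ^ 2 * N ^ 2 := by ring

/-- the image of the unit sphere around `u` is nearly round -/
theorem round (hn : 4 ≤ n) {F : EuclideanSpace ℝ (Fin n) → V} {ε : ℝ} (hε : 0 ≤ ε) (hε3 : ε ≤ 1 / 300)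
    {u e f : EuclideanSpace ℝ (Fin n)} (he : ‖e‖ = 1) (hf : ‖f‖ = 1)
    (hG : ∀ v, ‖v - u‖ ≤ 5 → Good F (ε ^ 4) v) : ‖F (u + e) - F u‖ ≤ 6 / 5 * ‖F (u + f) - F u‖ := by
  obtain ⟨p, hp, hpe, hpf, -⟩ := exists_perp hn e f e
  have h1 := (steps hn hε hε3 he hp hpe hG).1
  have h2 := (steps hn hε hε3 hp hf (by rw [real_inner_comm]; exact hpf) hG).1
  refine le_of_sq_le_sq ?_ (by positivity)
  have h3 : (6 / 5 * ‖F (u + f) - F u‖) ^ 2 = 6 / 5 * (6 / 5 * ‖F (u + f) - F u‖ ^ 2) := by ring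
  rw [h3]
  linarith

/-- the images of antipodal points of the unit sphere around `u` are nearly antipodal -/
theorem antipodal (hn : 4 ≤ n) {F : EuclideanSpace ℝ (Fin n) → V} {ε : ℝ} (hε : 0 ≤ ε) (hε3 : ε ≤ 1 / 300)
    {u e : EuclideanSpace ℝ (Fin n)} (he : ‖e‖ = 1) (hG : ∀ v, ‖v - u‖ ≤ 5 → Good F (ε ^ 4) v) :
    ‖F (u + e) + F (u - e) - (2 : ℝ) • F u‖ ≤ 13 * ε * ‖F (u + e) - F u‖ := by
  obtain ⟨p, hp, hpe, -, -⟩ := exists_perp hn e e e
  exact (steps hn hε hε3 he hp hpe hG).2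

end Pool.Agent.H8.RA
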