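import Mathlib

/-!
# Maps which nearly preserve the right angles of isosceles right triangles with legs of length one

Let `F` be a map from a Euclidean space of dimension at least four to an inner product space such that the right
angles of all isosceles right triangles with legs of length one near `u` have images which are nearly right angles.
Then the images of the points of the unit sphere around `u` have nearly the same distance from `F u`, and the images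
of antipodal points of this sphere are nearly antipodal with respect to `F u`.
-/

set_option autoImplicit false

open Set Filter Topology Metric

noncomputable section

namespace Pool.Agent.H8.RA

section vec

variable {V : Type*} [NormedAddCommGroup V] [InnerProductSpace ℝ V]

/-- a quadrilateral with nearly right angles is nearly a parallelogram -/
theorem vec_square {a b D : V} {ε m : ℝ} (hε : 0 ≤ ε) (hε3 : ε ≤ 1 / 3) (ha : ‖a‖ ≤ m) (hb : ‖b‖ ≤ m)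
    (h1 : |inner ℝ a b| ≤ ε ^ 2 * (‖a‖ * ‖b‖)) (h2 : |inner ℝ a (b + D)| ≤ ε ^ 2 * (‖a‖ * ‖b + D‖))
    (h3 : |inner ℝ (a + D) b| ≤ ε ^ 2 * (‖a + D‖ * ‖b‖))
    (h4 : |inner ℝ (a + D) (b + D)| ≤ ε ^ 2 * (‖a + D‖ * ‖b + D‖)) : ‖D‖ ≤ 3 * ε * m := by
  have hD : ‖D‖ ^ 2 = inner ℝ (a + D) (b + D) - inner ℝ (a + D) b - inner ℝ a (b + D) + inner ℝ a b := by
    rw [← real_inner_self_eq_norm_sq]
    simp only [inner_add_left, inner_add_right]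
    ring
  have hm : 0 ≤ m := (norm_nonneg a).trans ha
  have h5 : ‖D‖ ^ 2 ≤ ε ^ 2 * ((‖a‖ + ‖a + D‖) * (‖b‖ + ‖b + D‖)) := by
    have e1 := (abs_le.1 h1).2
    have e2 := (abs_le.1 h2).1
    have e3 := (abs_le.1 h3).1
    have e4 := (abs_le.1 h4).2
    have e5 : ε ^ 2 * ((‖a‖ + ‖a + D‖) * (‖b‖ + ‖b + D‖)) = ε ^ 2 * (‖a‖ * ‖b‖) + ε ^ 2 * (‖a‖ * ‖b + D‖) +
        ε ^ 2 * (‖a + D‖ * ‖b‖) + ε ^ 2 * (‖a + D‖ * ‖b + D‖) := by ring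
    rw [e5, hD]
    linarith
  have h6 : ‖a‖ + ‖a + D‖ ≤ 2 * m + ‖D‖ := by
    have := norm_add_le a D
    linarith
  have h7 : ‖b‖ + ‖b + D‖ ≤ 2 * m + ‖D‖ := by
    have := norm_add_le b D
    linarith
  have h8 : ‖D‖ ^ 2 ≤ (ε * (2 * m + ‖D‖)) ^ 2 := by
    calc ‖D‖ ^ 2 ≤ ε ^ 2 * ((‖a‖ + ‖a + D‖) * (‖b‖ + ‖b + D‖)) := h5
      _ ≤ ε ^ 2 * ((2 * m + ‖D‖) * (2 * m + ‖D‖)) := by gcongr
      _ = (ε * (2 * m + ‖D‖)) ^ 2 := by ring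
  have h9 : ‖D‖ ≤ ε * (2 * m + ‖D‖) :=
    le_of_sq_le_sq h8 (by positivity)
  nlinarith [norm_nonneg D, mul_nonneg hε hm, mul_nonneg hε (norm_nonneg D)]

/-- four nearly orthogonal vectors, the sum of two of them and the sum of the two others -/
theorem vec_frame {A B C D P R : V} {ε M : ℝ} (hε : 0 ≤ ε) (hε3 : ε ≤ 1 / 50) (hA : ‖A‖ ≤ M) (hB : ‖B‖ ≤ M)
    (hC : ‖C‖ ≤ M) (hD : ‖D‖ ≤ M) (hM : M ^ 2 ≤ ‖A‖ ^ 2 + ‖B‖ ^ 2 + ‖C‖ ^ 2 + ‖D‖ ^ 2)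
    (hAB : |inner ℝ A B| ≤ ε ^ 2 * (‖A‖ * ‖B‖)) (hCD : |inner ℝ C D| ≤ ε ^ 2 * (‖C‖ * ‖D‖))
    (hAC : |inner ℝ A C| ≤ ε ^ 2 * (‖A‖ * ‖C‖)) (hAD : |inner ℝ A D| ≤ ε ^ 2 * (‖A‖ * ‖D‖))
    (hBC : |inner ℝ B C| ≤ ε ^ 2 * (‖B‖ * ‖C‖)) (hBD : |inner ℝ B D| ≤ ε ^ 2 * (‖B‖ * ‖D‖))
    (hP : ‖P - (A + B)‖ ≤ 3 * ε * M) (hR : ‖R - (C + D)‖ ≤ 3 * ε * M) :
    |inner ℝ P R| ≤ 13 * ε * M ^ 2 ∧ M ^ 2 ≤ 2 * (‖P‖ ^ 2 + ‖R‖ ^ 2) := by
  have hM0 : 0 ≤ M := (norm_nonneg A).trans hA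
  have key : ∀ {x y : V}, ‖x‖ ≤ M → ‖y‖ ≤ M → |inner ℝ x y| ≤ ε ^ 2 * (‖x‖ * ‖y‖) → |inner ℝ x y| ≤ ε ^ 2 * M ^ 2 := by
    intro x y hx hy h
    refine h.trans ?_
    have : ‖x‖ * ‖y‖ ≤ M * M := mul_le_mul hx hy (norm_nonneg _) hM0
    calc ε ^ 2 * (‖x‖ * ‖y‖) ≤ ε ^ 2 * (M * M) := mul_le_mul_of_nonneg_left this (by positivity)
      _ = ε ^ 2 * M ^ 2 := by ring
  obtain ⟨p, hp⟩ : ∃ p, p = P - (A + B) := ⟨_, rfl⟩
  obtain ⟨r, hr⟩ : ∃ r, r = R - (C + D) := ⟨_, rfl⟩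
  rw [← hp] at hP
  rw [← hr] at hR
  have hP' : P = A + B + p := by rw [hp]; abel
  have hR' : R = C + D + r := by rw [hr]; abel
  have nAB : ‖A + B‖ ≤ 2 * M := (norm_add_le _ _).trans (by linarith)
  have nCD : ‖C + D‖ ≤ 2 * M := (norm_add_le _ _).trans (by linarith)
  have hεM : 0 ≤ ε * M := by positivity
  have i1 : |inner ℝ p (C + D)| ≤ 6 * ε * M ^ 2 := by
    refine (abs_real_inner_le_norm _ _).trans ?_
    calc ‖p‖ * ‖C + D‖ ≤ 3 * ε * M * (2 * M) := mul_le_mul hP nCD (norm_nonneg _) (by positivity)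
      _ = 6 * ε * M ^ 2 := by ring
  have i2 : |inner ℝ (A + B) r| ≤ 6 * ε * M ^ 2 := by
    refine (abs_real_inner_le_norm _ _).trans ?_
    calc ‖A + B‖ * ‖r‖ ≤ 2 * M * (3 * ε * M) := mul_le_mul nAB hR (norm_nonneg _) (by positivity)
      _ = 6 * ε * M ^ 2 := by ring
  have i3 : |inner ℝ p r| ≤ 9 * ε ^ 2 * M ^ 2 := by
    refine (abs_real_inner_le_norm _ _).trans ?_
    calc ‖p‖ * ‖r‖ ≤ 3 * ε * M * (3 * ε * M) := mul_le_mul hP hR (norm_nonneg _) (by positivity)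
      _ = 9 * ε ^ 2 * M ^ 2 := by ring
  have i4 : |inner ℝ (A + B) p| ≤ 6 * ε * M ^ 2 := by
    refine (abs_real_inner_le_norm _ _).trans ?_
    calc ‖A + B‖ * ‖p‖ ≤ 2 * M * (3 * ε * M) := mul_le_mul nAB hP (norm_nonneg _) (by positivity)
      _ = 6 * ε * M ^ 2 := by ring
  have i5 : |inner ℝ (C + D) r| ≤ 6 * ε * M ^ 2 := by
    refine (abs_real_inner_le_norm _ _).trans ?_
    calc ‖C + D‖ * ‖r‖ ≤ 2 * M * (3 * ε * M) := mul_le_mul nCD hR (norm_nonneg _) (by positivity)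
      _ = 6 * ε * M ^ 2 := by ring
  have kAB := abs_le.1 (key hA hB hAB)
  have kCD := abs_le.1 (key hC hD hCD)
  have kAC := abs_le.1 (key hA hC hAC)
  have kAD := abs_le.1 (key hA hD hAD)
  have kBC := abs_le.1 (key hB hC hBC)
  have kBD := abs_le.1 (key hB hD hBD)
  rw [abs_le] at i1 i2 i3 i4 i5
  have hsm : ε ^ 2 * M ^ 2 ≤ (1 / 50) * (ε * M ^ 2) := by
    have : ε ^ 2 * M ^ 2 = ε * (ε * M ^ 2) := by ring
    rw [this]
    exact mul_le_mul_of_nonneg_right hε3 (by positivity)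
  have hεM2 : 0 ≤ ε * M ^ 2 := by positivity
  have hε2M2 : 0 ≤ ε ^ 2 * M ^ 2 := by positivity
  constructor
  · have h1 : inner ℝ P R = inner ℝ A C + inner ℝ A D + inner ℝ B C + inner ℝ B D + inner ℝ p (C + D) +
        inner ℝ (A + B) r + inner ℝ p r := by
      rw [hP', hR']
      simp only [inner_add_left, inner_add_right]
      ring
    rw [h1, abs_le]
    constructor <;> nlinarith
  · have h1 : ‖P‖ ^ 2 = ‖A‖ ^ 2 + ‖B‖ ^ 2 + 2 * inner ℝ A B + 2 * inner ℝ (A + B) p + ‖p‖ ^ 2 := by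
      rw [hP', norm_add_sq_real, norm_add_sq_real]
      ring
    have h2 : ‖R‖ ^ 2 = ‖C‖ ^ 2 + ‖D‖ ^ 2 + 2 * inner ℝ C D + 2 * inner ℝ (C + D) r + ‖r‖ ^ 2 := by
      rw [hR', norm_add_sq_real, norm_add_sq_real]
      ring
    have h3 : ε * M ^ 2 ≤ (1 / 50) * M ^ 2 := mul_le_mul_of_nonneg_right hε3 (by positivity)
    have h4 : 0 ≤ ‖p‖ ^ 2 := by positivity
    have h5 : 0 ≤ ‖r‖ ^ 2 := by positivity
    rw [h1, h2]
    nlinarith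

/-- the differences of a map with steps `± e`, `± e'` -/
theorem vec_cross {x x' z z' : V} {ε N : ℝ} (hε : 0 ≤ ε) (hε3 : ε ≤ 1 / 300) (hx : ‖x‖ ≤ N) (hx' : ‖x'‖ ≤ N)
    (hz : ‖z‖ ≤ N) (hz' : ‖z'‖ ≤ N) (hN : N ^ 2 ≤ ‖x‖ ^ 2 ∨ N ^ 2 ≤ ‖x'‖ ^ 2 ∨ N ^ 2 ≤ ‖z‖ ^ 2 ∨ N ^ 2 ≤ ‖z'‖ ^ 2)
    (h1 : |inner ℝ x z| ≤ ε ^ 4 * N ^ 2) (h2 : |inner ℝ x z'| ≤ ε ^ 4 * N ^ 2) (h3 : |inner ℝ x' z| ≤ ε ^ 4 * N ^ 2)
    (h4 : |inner ℝ x' z'| ≤ ε ^ 4 * N ^ 2) (h5 : ‖(x + x') - (z + z')‖ ≤ 56 * ε ^ 2 * N)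
    (h6 : |inner ℝ (z - x) (z' - x)| ≤ 208 * ε ^ 2 * N ^ 2) :
    ‖x‖ ^ 2 ≤ 6 / 5 * ‖z‖ ^ 2 ∧ ‖x + x'‖ ≤ 13 * ε * ‖x‖ := by
  have hN0 : 0 ≤ N := (norm_nonneg x).trans hx
  have hN2 : 0 ≤ N ^ 2 := by positivity
  have hεN : 0 ≤ ε * N ^ 2 := by positivity
  have hs : ε ^ 2 * N ^ 2 ≤ (1 / 300) * (ε * N ^ 2) := by
    have : ε ^ 2 * N ^ 2 = ε * (ε * N ^ 2) := by ring
    rw [this]
    exact mul_le_mul_of_nonneg_right hε3 hεN
  have hs4 : ε ^ 4 * N ^ 2 ≤ (1 / 90000) * (ε ^ 2 * N ^ 2) := by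
    have : ε ^ 4 * N ^ 2 = ε ^ 2 * (ε ^ 2 * N ^ 2) := by ring
    rw [this]
    refine mul_le_mul_of_nonneg_right ?_ (by positivity)
    nlinarith
  have hs0 : 0 ≤ ε ^ 2 * N ^ 2 := by positivity
  have hs1 : ε * N ^ 2 ≤ (1 / 300) * N ^ 2 := mul_le_mul_of_nonneg_right hε3 hN2
  rw [abs_le] at h1 h2 h3 h4 h6
  -- the second differences
  have hin : inner ℝ (x + x') (z + z') = inner ℝ x z + inner ℝ x z' + inner ℝ x' z + inner ℝ x' z' := by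
    simp only [inner_add_left, inner_add_right]
    ring
  have hkn : ‖x + x'‖ ≤ 2 * N := (norm_add_le _ _).trans (by linarith)
  have hln : ‖z + z'‖ ≤ 2 * N := (norm_add_le _ _).trans (by linarith)
  have hk : ‖x + x'‖ ^ 2 ≤ 121 * ε ^ 2 * N ^ 2 := by
    have e1 : ‖x + x'‖ ^ 2 = inner ℝ (x + x') (z + z') + inner ℝ (x + x') ((x + x') - (z + z')) := by
      rw [inner_sub_right, real_inner_self_eq_norm_sq]; ring
    have e2 : |inner ℝ (x + x') ((x + x') - (z + z'))| ≤ 2 * N * (56 * ε ^ 2 * N) :=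
      (abs_real_inner_le_norm _ _).trans (mul_le_mul hkn h5 (norm_nonneg _) (by positivity))
    have e3 := (abs_le.1 e2).2
    have e4 : 2 * N * (56 * ε ^ 2 * N) = 112 * (ε ^ 2 * N ^ 2) := by ring
    rw [e1, hin]
    nlinarith
  have hl : ‖z + z'‖ ^ 2 ≤ 121 * ε ^ 2 * N ^ 2 := by
    have e1 : ‖z + z'‖ ^ 2 = inner ℝ (x + x') (z + z') - inner ℝ ((x + x') - (z + z')) (z + z') := by
      rw [inner_sub_left, real_inner_self_eq_norm_sq]; ring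
    have e2 : |inner ℝ ((x + x') - (z + z')) (z + z')| ≤ 56 * ε ^ 2 * N * (2 * N) :=
      (abs_real_inner_le_norm _ _).trans (mul_le_mul h5 hln (norm_nonneg _) (by positivity))
    have e3 := (abs_le.1 e2).1
    have e4 : 56 * ε ^ 2 * N * (2 * N) = 112 * (ε ^ 2 * N ^ 2) := by ring
    rw [e1, hin]
    nlinarith
  have hk' : ‖x + x'‖ ≤ 11 * ε * N := by
    refine le_of_sq_le_sq ?_ (by positivity)
    calc ‖x + x'‖ ^ 2 ≤ 121 * ε ^ 2 * N ^ 2 := hk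
      _ = (11 * ε * N) ^ 2 := by ring
  have hl' : ‖z + z'‖ ≤ 11 * ε * N := by
    refine le_of_sq_le_sq ?_ (by positivity)
    calc ‖z + z'‖ ^ 2 ≤ 121 * ε ^ 2 * N ^ 2 := hl
      _ = (11 * ε * N) ^ 2 := by ring
  -- the lengths
  have c1 : ‖x‖ ^ 2 - ‖z‖ ^ 2 = inner ℝ (z - x) (z' - x) - inner ℝ (z - x) (z + z') := by
    simp only [inner_sub_left, inner_sub_right, inner_add_right, ← real_inner_self_eq_norm_sq]
    rw [real_inner_comm x z]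
    ring
  have c2 : ‖x‖ ^ 2 - ‖z'‖ ^ 2 = inner ℝ (z - x) (z' - x) - inner ℝ (z + z') (z' - x) := by
    simp only [inner_sub_left, inner_sub_right, inner_add_left, ← real_inner_self_eq_norm_sq]
    rw [real_inner_comm x z']
    ring
  have c3 : ‖x‖ ^ 2 - ‖x'‖ ^ 2 = inner ℝ (x + x') (x - x') := by
    simp only [inner_sub_right, inner_add_left, ← real_inner_self_eq_norm_sq]
    rw [real_inner_comm x x']
    ring
  have b1 : |inner ℝ (z - x) (z + z')| ≤ 22 * (ε * N ^ 2) := by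
    refine (abs_real_inner_le_norm _ _).trans ?_
    have : ‖z - x‖ ≤ 2 * N := (norm_sub_le _ _).trans (by linarith)
    calc ‖z - x‖ * ‖z + z'‖ ≤ 2 * N * (11 * ε * N) := mul_le_mul this hl' (norm_nonneg _) (by positivity)
      _ = 22 * (ε * N ^ 2) := by ring
  have b2 : |inner ℝ (z + z') (z' - x)| ≤ 22 * (ε * N ^ 2) := by
    refine (abs_real_inner_le_norm _ _).trans ?_
    have : ‖z' - x‖ ≤ 2 * N := (norm_sub_le _ _).trans (by linarith)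
    calc ‖z + z'‖ * ‖z' - x‖ ≤ 11 * ε * N * (2 * N) := mul_le_mul hl' this (norm_nonneg _) (by positivity)
      _ = 22 * (ε * N ^ 2) := by ring
  have b3 : |inner ℝ (x + x') (x - x')| ≤ 22 * (ε * N ^ 2) := by
    refine (abs_real_inner_le_norm _ _).trans ?_
    have : ‖x - x'‖ ≤ 2 * N := (norm_sub_le _ _).trans (by linarith)
    calc ‖x + x'‖ * ‖x - x'‖ ≤ 11 * ε * N * (2 * N) := mul_le_mul hk' this (norm_nonneg _) (by positivity)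
      _ = 22 * (ε * N ^ 2) := by ring
  rw [abs_le] at b1 b2 b3
  have hsq : N ^ 2 ≤ ‖x‖ ^ 2 + 23 * (ε * N ^ 2) := by
    rcases hN with h | h | h | h <;> nlinarith
  have hxz : ‖x‖ ^ 2 ≤ ‖z‖ ^ 2 + 23 * (ε * N ^ 2) := by nlinarith
  constructor
  · nlinarith [sq_nonneg ‖z‖]
  · have hNx : N ≤ 13 / 11 * ‖x‖ := by
      refine le_of_sq_le_sq ?_ (by positivity)
      have : (13 / 11 * ‖x‖) ^ 2 = 169 / 121 * ‖x‖ ^ 2 := by ring
      rw [this]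
      nlinarith [sq_nonneg ‖x‖]
    calc ‖x + x'‖ ≤ 11 * ε * N := hk'
      _ ≤ 11 * ε * (13 / 11 * ‖x‖) := mul_le_mul_of_nonneg_left hNx (by positivity)
      _ = 13 * ε * ‖x‖ := by ring

end vec

end Pool.Agent.H8.RA
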