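import Pool.Agent.H8.RA.Config
import Pool.Agent.H33.NA.Transfer

/-!
# Maps between manifolds which nearly preserve the right angles of small isosceles right triangles are coarsely affine

The argument of `Pool.Agent.H33.NA.Transfer` with the estimates of `Pool.Agent.H8.RA.Config`.
-/

set_option autoImplicit false

open Set Filter Topology Metric Function
open scoped Manifold ContDiff

noncomputable section

namespace Pool.Agent.H8.RA

open Pool.Agent.H33.NC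
open Pool.Agent.H33.NA
open Pool.Agent.Y522 (LD)
open Pool.Agent.H865_small (Imm exists_iso iso_norm exists_chartB imm_smooth)
open Pool.Agent.H865_cl (CCT)

variable {n m k : ℕ} {X Y : Type} [TopologicalSpace X] [ChartedSpace (E n) X] [TopologicalSpace Y]
  [ChartedSpace (E n) Y]

/-- near `x` the angles at `f v` of the images of nearly isosceles triangles with nearly right angles at `v` and legs
about `s ∈ S` are nearly right angles -/
def Right (e : X → E m) (f : X → E k) (S : Set ℝ) (δ : ℝ) (x : X) : Prop :=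
  ∃ U ∈ 𝓝 x, ∃ r : ℝ, 0 < r ∧ ∃ τ : ℝ, 0 < τ ∧ ∀ s ∈ S, 0 < s → s < r → ∀ u ∈ U, ∀ v ∈ U, ∀ w ∈ U,
    |‖e u - e v‖ - s| ≤ τ * s → |‖e w - e v‖ - s| ≤ τ * s → |‖e u - e w‖ - √2 * s| ≤ τ * s →
      |inner ℝ (f u - f v) (f w - f v)| < δ * (‖f u - f v‖ * ‖f w - f v‖)

theorem cct_of_right (n : ℕ) (hn : 4 ≤ n) {η : ℝ} (hη : 0 < η) : ∃ δ : ℝ, 0 < δ ∧
    ∀ (m k : ℕ) (X Y : Type) [TopologicalSpace X] [ChartedSpace (E n) X] [TopologicalSpace Y] [ChartedSpace (E n) Y]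
      [IsManifold (𝓡 n) ∞ X] [IsManifold (𝓡 n) ∞ Y] (e : X → E m) (j : Y → E k) (g : X → Y) (x : X) (S : Set ℝ),
      Imm (n := n) e x → Imm (n := n) j (g x) → ContinuousAt g x → Right e (fun y => j (g y)) S δ x →
      CCT e (fun y => j (g y)) S η x := by
  obtain ⟨K2, hK2⟩ : ∃ K2 : ℝ, K2 = 4 := ⟨_, rfl⟩
  have hK21 : 1 ≤ K2 := by
    rw [hK2]
    norm_num
  have hK20 : 0 < K2 := by linarith
  obtain ⟨ε, hε⟩ : ∃ ε : ℝ, ε = η / (4 * K2) := ⟨_, rfl⟩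
  have hε0 : 0 < ε := by rw [hε]; positivity
  have hεη : K2 * ε = η / 4 := by rw [hε]; field_simp
  obtain ⟨δ0, hδ0, R, hR, hnear⟩ := near_affine n (by omega) hK21 hε0 2
  obtain ⟨ε1, hε1⟩ : ∃ ε1 : ℝ, ε1 = min (1 / 300) (δ0 / 52) := ⟨_, rfl⟩
  have hε10 : 0 < ε1 := by rw [hε1]; positivity
  have hε13 : ε1 ≤ 1 / 300 := by rw [hε1]; exact min_le_left _ _
  have hε1δ : 13 * ε1 ≤ δ0 / 4 := by
    have : ε1 ≤ δ0 / 52 := by rw [hε1]; exact min_le_right _ _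
    linarith
  refine ⟨ε1 ^ 4, by positivity, ?_⟩
  intro m k X Y _ _ _ _ _ _ e j g x S he hj hg hright
  obtain ⟨U0, hU0, r0, hr0, τ, hτ, hrd⟩ := hright
  obtain ⟨D, hD⟩ : ∃ D : ℝ, D = K2 * (2 * K2 + ε) + 2 := ⟨_, rfl⟩
  have hD0 : 0 < D := by rw [hD]; positivity
  obtain ⟨θ, hθd⟩ : ∃ θ : ℝ, θ = min (min (τ / 2) (1 / 2)) (min (δ0 / (2 * (1 + K2))) (η / (2 * D))) := ⟨_, rfl⟩
  have hθ : 0 < θ := by rw [hθd]; positivity
  have hθτ : θ * 2 ≤ τ := by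
    have : θ ≤ τ / 2 := by rw [hθd]; exact (min_le_left _ _).trans (min_le_left _ _)
    linarith
  have hθh : θ ≤ 1 / 2 := by rw [hθd]; exact (min_le_left _ _).trans (min_le_right _ _)
  have hθδ : θ * (1 + K2) ≤ δ0 / 2 := by
    have : θ ≤ δ0 / (2 * (1 + K2)) := by rw [hθd]; exact (min_le_right _ _).trans (min_le_left _ _)
    rw [le_div_iff₀ (by positivity)] at this
    linarith
  have hθη : θ * D ≤ η / 2 := by
    have : θ ≤ η / (2 * D) := by rw [hθd]; exact (min_le_right _ _).trans (min_le_right _ _)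
    rw [le_div_iff₀ (by positivity)] at this
    linarith
  obtain ⟨A, hA0, hA, Je, hJe, t1, ht1, hAe⟩ := exists_param' (n := n) he hθ
  obtain ⟨B, hB0, hB, Jj, hJj, t2, ht2, hBj⟩ := exists_param' (n := n) hj hθ
  -- the map in the parametrizations
  have hev : ∀ᶠ z in 𝓝 (0 : E n), A z ∈ U0 ∧ g (A z) ∈ B '' ball 0 t2 := by
    have h1 : Tendsto A (𝓝 0) (𝓝 x) := by
      have := (hA 0).continuousAt.tendsto
      rwa [hA0] at this
    have h2 : B '' ball 0 t2 ∈ 𝓝 (g x) := by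
      have := (hB 0).image_mem_nhds (ball_mem_nhds (0 : E n) ht2)
      rwa [hB0] at this
    exact (h1.eventually hU0).and ((hg.tendsto.comp h1).eventually h2)
  obtain ⟨ρ', hρ', hρ'2⟩ := Metric.eventually_nhds_iff.1 hev
  obtain ⟨ρ, hρd⟩ : ∃ ρ : ℝ, ρ = min ρ' t1 := ⟨_, rfl⟩
  have hρ : 0 < ρ := by rw [hρd]; exact lt_min hρ' ht1
  have hin : ∀ z : E n, ‖z‖ < ρ → A z ∈ U0 ∧ ∃ y : E n, ‖y‖ < t2 ∧ B y = g (A z) := by
    intro z hz
    have h1 := hρ'2 (y := z) (by rw [dist_zero_right]; exact hz.trans_le (by rw [hρd]; exact min_le_left _ _))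
    obtain ⟨h2, y, hy, hy2⟩ := h1
    exact ⟨h2, y, mem_ball_zero_iff.1 hy, hy2⟩
  have hex : ∀ z : E n, ∃ y : E n, ‖z‖ < ρ → ‖y‖ < t2 ∧ B y = g (A z) := by
    intro z
    by_cases hz : ‖z‖ < ρ
    · obtain ⟨y, hy⟩ := (hin z hz).2
      exact ⟨y, fun _ => hy⟩
    · exact ⟨0, fun h => absurd h hz⟩
  choose h hh using hex
  have hAe0 : ∀ z z' : E n, ‖z‖ < ρ → ‖z'‖ < ρ → ‖e (A z) - e (A z') - Je (z - z')‖ ≤ θ * ‖z - z'‖ := by
    intro z z' hz hz'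
    refine hAe z z' (hz.trans_le ?_) (hz'.trans_le ?_) <;> rw [hρd] <;> exact min_le_right _ _
  have hAe' : ∀ z z' : E n, ‖z‖ < ρ → ‖z'‖ < ρ → |‖e (A z) - e (A z')‖ - ‖z - z'‖| ≤ θ * ‖z - z'‖ := by
    intro z z' hz hz'
    have h1 := hAe0 z z' hz hz'
    have h2 := abs_norm_sub_norm_le (e (A z) - e (A z')) (Je (z - z'))
    rw [hJe] at h2
    exact h2.trans h1
  have hfh0 : ∀ z z' : E n, ‖z‖ < ρ → ‖z'‖ < ρ →
      ‖j (g (A z)) - j (g (A z')) - Jj (h z - h z')‖ ≤ θ * ‖h z - h z'‖ := by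
    intro z z' hz hz'
    obtain ⟨h1, h2⟩ := hh z hz
    obtain ⟨h3, h4⟩ := hh z' hz'
    rw [← h2, ← h4]
    exact hBj _ _ h1 h3
  have hfh : ∀ z z' : E n, ‖z‖ < ρ → ‖z'‖ < ρ →
      |‖j (g (A z)) - j (g (A z'))‖ - ‖h z - h z'‖| ≤ θ * ‖h z - h z'‖ := by
    intro z z' hz hz'
    have h1 := hfh0 z z' hz hz'
    have h2 := abs_norm_sub_norm_le (j (g (A z)) - j (g (A z'))) (Jj (h z - h z'))
    rw [hJj] at h2
    exact h2.trans h1
  refine ⟨A '' ball 0 (ρ / 2), ?_, min r0 (ρ / (4 * (R + 7))), lt_min hr0 (by positivity),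
    2 * K2 * (2 * K2 + ε), ?_⟩
  · have := (hA 0).image_mem_nhds (ball_mem_nhds (0 : E n) (show 0 < ρ / 2 by positivity))
    rwa [hA0] at this
  rintro y ⟨ζ, hζ, rfl⟩ s hs hs0 hsr v hv
  rw [mem_ball_zero_iff] at hζ
  have hsr0 : s < r0 := hsr.trans_le (min_le_left _ _)
  have hsρ : s * (R + 6) ≤ ρ / 4 := by
    have h1 : s ≤ ρ / (4 * (R + 7)) := (hsr.trans_le (min_le_right _ _)).le
    have h2 : s * (4 * (R + 7)) ≤ ρ := by rwa [le_div_iff₀ (by positivity)] at h1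
    nlinarith
  have hball : ∀ p : E n, ‖p‖ ≤ R + 6 → ‖ζ + s • p‖ < ρ := by
    intro p hp
    have h1 : ‖ζ + s • p‖ ≤ ‖ζ‖ + s * (R + 6) := by
      refine (norm_add_le _ _).trans ?_
      rw [norm_smul, Real.norm_eq_abs, abs_of_pos hs0]
      gcongr
    linarith
  have hdist : ∀ (a : ℝ) (p q : E n), 0 < a → a ≤ 2 → ‖p‖ ≤ R + 6 → ‖q‖ ≤ R + 6 → ‖p - q‖ = a →
      |‖e (A (ζ + s • p)) - e (A (ζ + s • q))‖ - a * s| ≤ τ * s := by
    intro a p q ha ha2 hp hq hpq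
    have h1 := hAe' _ _ (hball p hp) (hball q hq)
    have h2 : ‖ζ + s • p - (ζ + s • q)‖ = a * s := by
      rw [add_sub_add_left_eq_sub, ← smul_sub, norm_smul, hpq, Real.norm_eq_abs, abs_of_pos hs0, mul_comm]
    rw [h2] at h1
    refine h1.trans ?_
    calc θ * (a * s) ≤ θ * (2 * s) := by gcongr
      _ = (θ * 2) * s := by ring
      _ ≤ τ * s := by gcongr
  have hdist1 : ∀ p q : E n, ‖p‖ ≤ R + 6 → ‖q‖ ≤ R + 6 → ‖p - q‖ = 1 →
      |‖e (A (ζ + s • p)) - e (A (ζ + s • q))‖ - s| ≤ τ * s := by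
    intro p q hp hq hpq
    have h1 := hdist 1 p q one_pos (by norm_num) hp hq hpq
    rwa [one_mul] at h1
  -- the right angles
  have hang : ∀ p a b : E n, ‖p‖ ≤ R + 5 → ‖a‖ = 1 → ‖b‖ = 1 → inner ℝ a b = 0 →
      |inner ℝ (j (g (A (ζ + s • (p + a)))) - j (g (A (ζ + s • p))))
        (j (g (A (ζ + s • (p + b)))) - j (g (A (ζ + s • p))))| <
      ε1 ^ 4 * (‖j (g (A (ζ + s • (p + a)))) - j (g (A (ζ + s • p)))‖ *
        ‖j (g (A (ζ + s • (p + b)))) - j (g (A (ζ + s • p)))‖) := by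
    intro p a b hp ha hb hab
    have hpa : ‖p + a‖ ≤ R + 6 := (norm_add_le _ _).trans (by rw [ha]; linarith)
    have hpb : ‖p + b‖ ≤ R + 6 := (norm_add_le _ _).trans (by rw [hb]; linarith)
    have hp' : ‖p‖ ≤ R + 6 := by linarith
    have hs2 : ‖p + a - (p + b)‖ = √2 := by
      rw [add_sub_add_left_eq_sub]
      have h1 : ‖a - b‖ ^ 2 = 2 := by
        rw [norm_sub_sq_real, ha, hb, hab]; norm_num
      rw [← h1, Real.sqrt_sq (norm_nonneg _)]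
    have h22 : √2 ≤ (2 : ℝ) := by
      rw [Real.sqrt_le_left (by norm_num)]; norm_num
    exact hrd s hs hs0 hsr0 _ (hin _ (hball _ hpa)).1 _ (hin _ (hball _ hp')).1 _ (hin _ (hball _ hpb)).1
      (hdist1 _ _ hpa hp' (by rw [add_sub_cancel_left, ha])) (hdist1 _ _ hpb hp' (by rw [add_sub_cancel_left, hb]))
      (hdist (√2) _ _ (by positivity) h22 hpa hpb hs2)
  have hgood : ∀ u : E n, ‖u‖ ≤ R → ∀ v, ‖v - u‖ ≤ 5 → Good (fun p => j (g (A (ζ + s • p)))) (ε1 ^ 4) v := by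
    intro u hu v hv a b ha hb hab
    have hv' : ‖v‖ ≤ R + 5 := by
      have : v = (v - u) + u := by abel
      rw [this]
      exact (norm_add_le _ _).trans (by linarith)
    exact (hang v a b hv' ha hb hab).le
  have hpos : ∀ u v : E n, ‖u‖ ≤ R → ‖u - v‖ = 1 → 0 < ‖j (g (A (ζ + s • u))) - j (g (A (ζ + s • v)))‖ := by
    intro u v hu huv
    obtain ⟨b, hb, hb1, -, -⟩ := exists_perp hn (v - u) 0 0
    have h1 := hang u (v - u) b (by linarith) (by rw [norm_sub_rev]; exact huv) hb hb1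
    rw [add_sub_cancel] at h1
    rw [norm_sub_rev]
    by_contra hcon
    have h2 : ‖j (g (A (ζ + s • v))) - j (g (A (ζ + s • u)))‖ = 0 :=
      le_antisymm (not_lt.1 hcon) (norm_nonneg _)
    rw [h2, zero_mul, mul_zero] at h1
    exact absurd h1 (not_lt.2 (abs_nonneg _))
  have hround : ∀ u v w : E n, ‖u‖ ≤ R → ‖u - v‖ = 1 → ‖u - w‖ = 1 →
      ‖j (g (A (ζ + s • u))) - j (g (A (ζ + s • v)))‖ ≤
        6 / 5 * ‖j (g (A (ζ + s • u))) - j (g (A (ζ + s • w)))‖ := by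
    intro u v w hu huv huw
    have h1 := round hn hε10.le hε13 (u := u) (e := v - u) (f := w - u) (by rw [norm_sub_rev]; exact huv)
      (by rw [norm_sub_rev]; exact huw) (hgood u hu)
    simp only [add_sub_cancel] at h1
    rw [norm_sub_rev (j (g (A (ζ + s • u)))), norm_sub_rev (j (g (A (ζ + s • u)))) (j (g (A (ζ + s • w))))]
    exact h1
  have hQ : ∀ u v w : E n, ‖u‖ ≤ R → ‖v‖ ≤ R → ‖w‖ ≤ R → ‖u - v‖ = 1 → ‖u - w‖ = 1 →
      ‖h (ζ + s • u) - h (ζ + s • v)‖ < K2 * ‖h (ζ + s • u) - h (ζ + s • w)‖ := by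
    intro u v w hu hv hw huv huw
    have h1 := hround u v w hu huv huw
    have h0 := hpos u w hu huw
    have h2 := (abs_le.1 (hfh _ _ (hball u (by linarith)) (hball v (by linarith)))).1
    have h3 := (abs_le.1 (hfh _ _ (hball u (by linarith)) (hball w (by linarith)))).2
    obtain ⟨a, ha⟩ : ∃ a : ℝ, a = ‖h (ζ + s • u) - h (ζ + s • v)‖ := ⟨_, rfl⟩
    obtain ⟨b, hb⟩ : ∃ b : ℝ, b = ‖h (ζ + s • u) - h (ζ + s • w)‖ := ⟨_, rfl⟩
    rw [← ha] at h2 ⊢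
    rw [← hb] at h3 ⊢
    have hb0 : 0 ≤ b := by rw [hb]; exact norm_nonneg _
    have ha0 : 0 ≤ a := by rw [ha]; exact norm_nonneg _
    have h6 : (1 / 2) * a ≤ (1 - θ) * a := mul_le_mul_of_nonneg_right (by linarith) ha0
    have h7 : (1 + θ) * b ≤ (3 / 2) * b := mul_le_mul_of_nonneg_right (by linarith) hb0
    rw [hK2]
    linarith
  obtain ⟨κ, L, hκ, hL, hκ2⟩ := hnear (fun p => h (ζ + s • p)) hQ (by
    intro u v w hu hv hw huv huw hvw
    have hu' : ‖u‖ ≤ R + 6 := by linarith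
    have hv' : ‖v‖ ≤ R + 6 := by linarith
    have hw' : ‖w‖ ≤ R + 6 := by linarith
    have hwv : w = u - (v - u) := by
      -- equality in the triangle inequality
      have i1 : ‖(v - u) + (w - u)‖ ^ 2 + ‖(v - u) - (w - u)‖ ^ 2 = 2 * (‖v - u‖ ^ 2 + ‖w - u‖ ^ 2) := by
        have := parallelogram_law_with_norm ℝ (v - u) (w - u)
        nlinarith
      rw [norm_sub_rev v u, huv, norm_sub_rev w u, huw, sub_sub_sub_cancel_right, hvw] at i1
      have i2 : ‖(v - u) + (w - u)‖ ^ 2 = 0 := by linarith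
      have i3 : (v - u) + (w - u) = 0 := by
        rw [← norm_eq_zero]
        exact pow_eq_zero_iff (two_ne_zero) |>.1 i2
      have i4 : w - u = -(v - u) := by
        rw [eq_neg_iff_add_eq_zero, add_comm]; exact i3
      have i5 : w = u + (w - u) := by abel
      rw [i5, i4]; abel
    have h1 := antipodal hn hε10.le hε13 (u := u) (e := v - u) (by rw [norm_sub_rev]; exact huv) (hgood u hu)
    rw [← hwv] at h1
    simp only [add_sub_cancel] at h1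
    rw [norm_sub_rev (j (g (A (ζ + s • v)))) (j (g (A (ζ + s • u))))] at h1
    have h2 := hfh0 _ _ (hball v hv') (hball u hu')
    have h3 := hfh0 _ _ (hball w hw') (hball u hu')
    have h4 := (abs_le.1 (hfh _ _ (hball u hu') (hball v hv'))).2
    have h5 := (hQ u w v hu hw hv huw huv).le
    obtain ⟨a, ha⟩ : ∃ a : ℝ, a = ‖h (ζ + s • u) - h (ζ + s • v)‖ := ⟨_, rfl⟩
    rw [norm_sub_rev (h (ζ + s • v)), ← ha] at h2
    rw [norm_sub_rev (h (ζ + s • w))] at h3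
    rw [← ha] at h4 h5 ⊢
    have ha0 : 0 ≤ a := by rw [ha]; exact norm_nonneg _
    have h6 : ‖h (ζ + s • v) + h (ζ + s • w) - (2 : ℝ) • h (ζ + s • u)‖ =
        ‖Jj (h (ζ + s • v) + h (ζ + s • w) - (2 : ℝ) • h (ζ + s • u))‖ := (hJj _).symm
    have h7 : Jj (h (ζ + s • v) + h (ζ + s • w) - (2 : ℝ) • h (ζ + s • u)) =
        (j (g (A (ζ + s • v))) + j (g (A (ζ + s • w))) - (2 : ℝ) • j (g (A (ζ + s • u)))) -
        (j (g (A (ζ + s • v))) - j (g (A (ζ + s • u))) - Jj (h (ζ + s • v) - h (ζ + s • u))) -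
        (j (g (A (ζ + s • w))) - j (g (A (ζ + s • u))) - Jj (h (ζ + s • w) - h (ζ + s • u))) := by
      rw [map_sub, map_sub, map_sub, map_add, map_smul]
      module
    rw [h6, h7]
    refine (norm_sub_le _ _).trans ?_
    have h8 := norm_sub_le (j (g (A (ζ + s • v))) + j (g (A (ζ + s • w))) - (2 : ℝ) • j (g (A (ζ + s • u))))
      (j (g (A (ζ + s • v))) - j (g (A (ζ + s • u))) - Jj (h (ζ + s • v) - h (ζ + s • u)))
    have h9 : θ * ‖h (ζ + s • u) - h (ζ + s • w)‖ ≤ θ * (K2 * a) := mul_le_mul_of_nonneg_left h5 hθ.le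
    have h10 : 13 * ε1 * ‖j (g (A (ζ + s • u))) - j (g (A (ζ + s • v)))‖ ≤ δ0 / 4 * (2 * a) := by
      refine mul_le_mul hε1δ ?_ (norm_nonneg _) (by positivity)
      nlinarith
    have h11 : (θ * (1 + K2)) * a ≤ δ0 / 2 * a := mul_le_mul_of_nonneg_right hθδ ha0
    nlinarith)
  -- the inverse of the linear map
  have hLi : Injective (L : E n →ₗ[ℝ] E n) := by
    rw [injective_iff_map_eq_zero]
    intro z hz
    have h1 := (hL z).1
    have h2 : L z = 0 := hz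
    rw [h2, norm_zero, mul_zero] at h1
    exact norm_le_zero_iff.1 h1
  obtain ⟨L', hL'⟩ : ∃ L' : E n →L[ℝ] E n, ∀ z, L' (L z) = z ∧ L (L' z) = z := by
    let Q := (LinearEquiv.ofInjectiveEndo (L : E n →ₗ[ℝ] E n) hLi).toContinuousLinearEquiv
    have hQ1 : ∀ z, Q z = L z := fun z => rfl
    refine ⟨(Q.symm : E n →L[ℝ] E n), fun z => ⟨?_, ?_⟩⟩
    · show Q.symm (L z) = z
      rw [← hQ1, ContinuousLinearEquiv.symm_apply_apply]
    · show L (Q.symm z) = z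
      rw [← hQ1, ContinuousLinearEquiv.apply_symm_apply]
  have hL'n : ∀ z, ‖L' z‖ ≤ K2 * ‖z‖ := by
    intro z
    have h1 := (hL (L' z)).1
    rwa [(hL' z).2] at h1
  obtain ⟨a, ha⟩ : ∃ a : E n, a = ContinuousLinearMap.adjoint Je v := ⟨_, rfl⟩
  have han : ‖a‖ ≤ 1 := by rw [ha, ← hv]; exact adj_norm hJe v
  obtain ⟨ℓ, hℓ⟩ : ∃ ℓ : E k →L[ℝ] ℝ, ∀ ξ, ℓ ξ = κ * s * inner ℝ a (L' (ContinuousLinearMap.adjoint Jj ξ)) := by
    refine ⟨(κ * s) • ((innerSL ℝ a).comp (L'.comp (ContinuousLinearMap.adjoint Jj))), fun ξ => ?_⟩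
    simp
  have hℓn : ‖ℓ‖ ≤ κ * s * K2 := by
    have hks : 0 < κ * s := by positivity
    refine ℓ.opNorm_le_bound (by positivity : (0 : ℝ) ≤ κ * s * K2) fun ξ => ?_
    rw [hℓ, Real.norm_eq_abs, abs_mul, abs_of_pos hks, mul_assoc (κ * s)]
    refine mul_le_mul_of_nonneg_left ?_ (by positivity)
    refine (abs_real_inner_le_norm _ _).trans ?_
    have h1 := hL'n (ContinuousLinearMap.adjoint Jj ξ)
    have h2 := adj_norm hJj ξ
    have h3 : K2 * ‖ContinuousLinearMap.adjoint Jj ξ‖ ≤ K2 * ‖ξ‖ := mul_le_mul_of_nonneg_left h2 hK20.le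
    calc ‖a‖ * ‖L' (ContinuousLinearMap.adjoint Jj ξ)‖ ≤ 1 * ‖L' (ContinuousLinearMap.adjoint Jj ξ)‖ :=
          mul_le_mul_of_nonneg_right han (norm_nonneg _)
      _ ≤ K2 * ‖ξ‖ := by linarith
  refine ⟨ℓ, -ℓ (j (g (A ζ))), ?_⟩
  rintro u ⟨zu, hzu, rfl⟩ hu
  rw [mem_ball_zero_iff] at hzu
  have hζρ : ‖ζ‖ < ρ := by linarith
  have hzuρ : ‖zu‖ < ρ := by linarith
  have hzu2 : ‖zu - ζ‖ ≤ 2 * s := by
    have h1 := (abs_le.1 (hAe' zu ζ hzuρ hζρ)).1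
    nlinarith [norm_nonneg (zu - ζ)]
  obtain ⟨p, hp⟩ : ∃ p : E n, p = s⁻¹ • (zu - ζ) := ⟨_, rfl⟩
  have hpn : ‖p‖ ≤ 2 := by
    rw [hp, norm_smul, Real.norm_eq_abs, abs_of_pos (inv_pos.2 hs0)]
    calc s⁻¹ * ‖zu - ζ‖ ≤ s⁻¹ * (2 * s) := by gcongr
      _ = 2 := by field_simp
  have hsp : s • p = zu - ζ := by rw [hp, smul_smul, mul_inv_cancel₀ hs0.ne', one_smul]
  have hpz : ζ + s • p = zu := by rw [hsp]; abel
  have h1 := hκ2 p hpn
  rw [hpz, smul_zero, add_zero] at h1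
  obtain ⟨ρ2, hρ2⟩ : ∃ ρ2 : E n, ρ2 = κ • (h zu - h ζ) - L p := ⟨_, rfl⟩
  rw [← hρ2] at h1
  obtain ⟨ρ1, hρ1⟩ : ∃ ρ1 : E k, ρ1 = j (g (A zu)) - j (g (A ζ)) - Jj (h zu - h ζ) := ⟨_, rfl⟩
  have h2 := hfh0 zu ζ hzuρ hζρ
  rw [← hρ1] at h2
  obtain ⟨ρ4, hρ4⟩ : ∃ ρ4 : E m, ρ4 = e (A zu) - e (A ζ) - Je (zu - ζ) := ⟨_, rfl⟩
  have h3 := hAe0 zu ζ hzuρ hζρ
  rw [← hρ4] at h3
  have h4 : κ * ‖h zu - h ζ‖ ≤ 2 * K2 + ε := by
    have h5 : κ * ‖h zu - h ζ‖ = ‖L p + ρ2‖ := by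
      rw [hρ2, add_sub_cancel, norm_smul, Real.norm_eq_abs, abs_of_pos hκ]
    rw [h5]
    have h6 := norm_add_le (L p) ρ2
    have h7 := (hL p).2
    have h8 : K2 * ‖p‖ ≤ K2 * 2 := mul_le_mul_of_nonneg_left hpn hK20.le
    linarith
  have h5 : κ • L' (ContinuousLinearMap.adjoint Jj (j (g (A zu)) - j (g (A ζ)))) =
      p + (L' ρ2 + κ • L' (ContinuousLinearMap.adjoint Jj ρ1)) := by
    have h6 : j (g (A zu)) - j (g (A ζ)) = Jj (h zu - h ζ) + ρ1 := by rw [hρ1]; abel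
    have h7 : κ • (h zu - h ζ) = L p + ρ2 := by rw [hρ2]; abel
    rw [h6, map_add, adj_apply hJj, map_add, smul_add, ← map_smul L' κ (h zu - h ζ), h7, map_add, (hL' p).1]
    abel
  obtain ⟨ρ3, hρ3⟩ : ∃ ρ3 : E n, ρ3 = L' ρ2 + κ • L' (ContinuousLinearMap.adjoint Jj ρ1) := ⟨_, rfl⟩
  rw [← hρ3] at h5
  have h6 : ‖ρ3‖ ≤ K2 * ε + K2 * θ * (2 * K2 + ε) := by
    rw [hρ3]
    refine (norm_add_le _ _).trans (add_le_add ?_ ?_)
    · exact (hL'n ρ2).trans (mul_le_mul_of_nonneg_left h1 hK20.le)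
    · rw [norm_smul, Real.norm_eq_abs, abs_of_pos hκ]
      have h7 := hL'n (ContinuousLinearMap.adjoint Jj ρ1)
      have h8 := adj_norm hJj ρ1
      calc κ * ‖L' (ContinuousLinearMap.adjoint Jj ρ1)‖ ≤ κ * (K2 * (θ * ‖h zu - h ζ‖)) := by
            refine mul_le_mul_of_nonneg_left (h7.trans (mul_le_mul_of_nonneg_left (h8.trans h2) hK20.le)) hκ.le
        _ = K2 * θ * (κ * ‖h zu - h ζ‖) := by ring
        _ ≤ K2 * θ * (2 * K2 + ε) := mul_le_mul_of_nonneg_left h4 (by positivity)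
  have hlin : ℓ (j (g (A zu))) + -ℓ (j (g (A ζ))) = inner ℝ v (Je (zu - ζ)) + s * inner ℝ a ρ3 := by
    rw [← sub_eq_add_neg, ← map_sub, hℓ]
    have h7 : κ * s * inner ℝ a (L' (ContinuousLinearMap.adjoint Jj (j (g (A zu)) - j (g (A ζ))))) =
        s * inner ℝ a (κ • L' (ContinuousLinearMap.adjoint Jj (j (g (A zu)) - j (g (A ζ))))) := by
      rw [real_inner_smul_right]; ring
    rw [h7, h5, inner_add_right, mul_add, ← real_inner_smul_right, hsp, ha,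
      ContinuousLinearMap.adjoint_inner_left]
  constructor
  · rw [hlin]
    have h7 : inner ℝ v (e (A zu) - e (A ζ)) = inner ℝ v (Je (zu - ζ)) + inner ℝ v ρ4 := by
      rw [← inner_add_right, hρ4]
      congr 1
      abel
    rw [h7]
    have h8 : |inner ℝ a ρ3| ≤ K2 * ε + K2 * θ * (2 * K2 + ε) := by
      refine (abs_real_inner_le_norm _ _).trans ?_
      calc ‖a‖ * ‖ρ3‖ ≤ 1 * ‖ρ3‖ := mul_le_mul_of_nonneg_right han (norm_nonneg _)
        _ ≤ _ := by linarith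
    have h9 : |inner ℝ v ρ4| ≤ θ * (2 * s) := by
      refine (abs_real_inner_le_norm _ _).trans ?_
      rw [hv, one_mul]
      exact h3.trans (mul_le_mul_of_nonneg_left hzu2 hθ.le)
    have h10 : s * |inner ℝ a ρ3| ≤ s * (K2 * ε + K2 * θ * (2 * K2 + ε)) := mul_le_mul_of_nonneg_left h8 hs0.le
    have h11 : inner ℝ v (Je (zu - ζ)) + s * inner ℝ a ρ3 - (inner ℝ v (Je (zu - ζ)) + inner ℝ v ρ4) =
        s * inner ℝ a ρ3 - inner ℝ v ρ4 := by ring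
    rw [h11]
    have h12 := abs_sub (s * inner ℝ a ρ3) (inner ℝ v ρ4)
    rw [abs_mul, abs_of_pos hs0] at h12
    have h13 : s * (K2 * ε + K2 * θ * (2 * K2 + ε)) + θ * (2 * s) = s * (η / 4 + θ * D) := by
      rw [hD, ← hεη]; ring
    have h14 : s * (η / 4 + θ * D) ≤ η * s := by nlinarith
    linarith
  · have h7 := (abs_le.1 (hfh zu ζ hzuρ hζρ)).2
    have h8 : ‖j (g (A zu)) - j (g (A ζ))‖ ≤ 2 * ‖h zu - h ζ‖ := by nlinarith [norm_nonneg (h zu - h ζ)]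
    calc ‖ℓ‖ * ‖j (g (A zu)) - j (g (A ζ))‖ ≤ κ * s * K2 * (2 * ‖h zu - h ζ‖) :=
          mul_le_mul hℓn h8 (norm_nonneg _) (by positivity)
      _ = 2 * s * K2 * (κ * ‖h zu - h ζ‖) := by ring
      _ ≤ 2 * s * K2 * (2 * K2 + ε) := mul_le_mul_of_nonneg_left h4 (by positivity)
      _ = 2 * K2 * (2 * K2 + ε) * s := by ring

end Pool.Agent.H8.RA
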